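import Mathlib
import Pool.Agent.N741.HB.Stm5
import Pool.Agent.N945.HC.CstP

/-!
# HK/K3: heights on the monomials in the ultraproduct (helper519)
-/

set_option autoImplicit false

namespace Pool.Agent.N519.HK

open Filter MvPolynomial Pool.Agent.Y902.GN Pool.Agent.N741.HB Pool.Agent.N741.HC
open Pool.Agent.N945.HC Pool.Agent.N741.HK

/-- the properties of the data at one point -/
structure PK {n P k : ℕ} (C Y e0 : ℕ) (b : Fin P → ℂ) (e : Fin n → Fin P → ℕ) (g : Fin n → ℕ)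
    (w r : ℕ) (u : Fin n → ℤ) (x : DT P k) : Prop where
  D0 : x.D ≠ 0
  Dbd : x.D ≤ (Y + 2) ^ C
  mbd : ∀ l, |x.mm l| ≤ ((Y : ℤ) + 2) ^ C
  vbbd : ∀ j l, |x.vb j l| ≤ ((Y : ℤ) + 2) ^ C
  vs0 : x.vs = 0
  v00 : x.v0 = 0
  root : x.α ^ k + vl x.α x.mm = 0
  lin : ∀ c : Fin k → ℤ, vl x.α c = 0 → c = 0
  evb : ∀ j, vl x.α (x.vb j) = x.D * b j
  zbd : ∀ l, |x.ζ l| ≤ 2 ^ w
  eq : (∑ i, (u i : ℂ) * ((x.D : ℂ) ^ g i * ∏ j, vl x.α (x.vb j) ^ e i j)) ^ e0 =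
    vl x.α x.ζ ^ r

theorem pt_bdK {n P k : ℕ} {C Y e0 : ℕ} {b : Fin P → ℂ} {e : Fin n → Fin P → ℕ} {g : Fin n → ℕ}
    {w r : ℕ} {u : Fin n → ℤ} {x : DT P k} (M : ℤ)
    (h : PK C Y e0 b e g w r u x) (hM : M = ((Y : ℤ) + 2) ^ C + 1) (q : Fin (NN P k)) :
    pt M x q ≠ 0 ∧ |pt M x q| ≤ (((Y + 2) ^ (C + 2) : ℕ) : ℤ) := by
  have a0 : (1 : ℤ) ≤ ((Y : ℤ) + 2) ^ C := one_le_pow₀ (by omega)
  have key : ∀ z : ℤ, |z| ≤ ((Y : ℤ) + 2) ^ C → M + z ≠ 0 ∧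
      |M + z| ≤ (((Y + 2) ^ (C + 2) : ℕ) : ℤ) := by
    intro z hz
    rw [abs_le] at hz
    have h1 : 1 ≤ M + z := by linarith [hz.1]
    refine ⟨by omega, ?_⟩
    rw [abs_of_nonneg (by linarith)]
    push_cast
    rw [pow_add]
    nlinarith [hz.2, sq_nonneg ((Y : ℤ)), Int.natCast_nonneg Y]
  have hz0 : M + 0 ≠ 0 ∧ |M + 0| ≤ (((Y + 2) ^ (C + 2) : ℕ) : ℤ) := key 0 (by simp; linarith)
  have k0 : |(0 : ℤ)| ≤ ((Y : ℤ) + 2) ^ C := by simp; linarith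
  unfold pt
  rcases (en P k).symm q with _ | l | p | p | l | _
  · simpa [co] using hz0
  · exact key _ (h.mbd l)
  · exact key _ (h.vbbd p.1 p.2)
  · refine key _ ?_
    rw [h.vs0]
    exact k0
  · refine key _ ?_
    rw [h.v00]
    exact k0
  · refine key _ ?_
    rw [abs_of_nonneg (Int.natCast_nonneg _)]
    exact_mod_cast h.Dbd

/-! ### vectors with an additional coordinate -/

/-- the vector with sum zero -/
def ex {P : ℕ} (a : Fin P → ℤ) : Fin (P + 1) → ℤ := Fin.snoc (α := fun _ => ℤ) a (-∑ j, a j)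

theorem ex_add {P : ℕ} (a b : Fin P → ℤ) : ex (a + b) = ex a + ex b := by
  funext j
  refine Fin.lastCases ?_ (fun j => ?_) j
  · simp [ex, Finset.sum_add_distrib]
    ring
  · simp [ex]

theorem ex_smul {P : ℕ} (k : ℕ) (a : Fin P → ℤ) : ex (k • a) = k • ex a := by
  funext j
  refine Fin.lastCases ?_ (fun j => ?_) j
  · simp [ex, Finset.mul_sum]
  · simp [ex]

theorem ex_neg {P : ℕ} (a : Fin P → ℤ) : ex (-a) = -ex a := by
  funext j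
  refine Fin.lastCases ?_ (fun j => ?_) j
  · simp [ex]
  · simp [ex]

theorem ex_single {P : ℕ} (j : Fin P) : ex (Pi.single j 1) =
    Pi.single (Fin.castSucc j) 1 + -Pi.single (Fin.last P) 1 := by
  funext i
  refine Fin.lastCases ?_ (fun i => ?_) i
  · have h : (Fin.last P) ≠ Fin.castSucc j := (Fin.castSucc_lt_last j).ne'
    simp [ex, Pi.single_apply, h]
  · have h : Fin.castSucc i ≠ Fin.last P := (Fin.castSucc_lt_last i).ne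
    simp [ex, Pi.single_apply, h]

theorem ex_sub {n P : ℕ} (e : Fin n → Fin P → ℕ) (g : Fin n → ℕ) (G : ℕ)
    (hg : ∀ i, g i + ∑ j, e i j = G) (i i' : Fin n) :
    ex (fun j => (e i j : ℤ) - (e i' j : ℤ)) =
      fun j => ((Fin.snoc (α := fun _ => ℕ) (e i) (g i) : Fin (P + 1) → ℕ) j : ℤ) -
        ((Fin.snoc (α := fun _ => ℕ) (e i') (g i') : Fin (P + 1) → ℕ) j : ℤ) := by
  funext j
  refine Fin.lastCases ?_ (fun j => ?_) j
  · have h1 : ((g i + ∑ j, e i j : ℕ) : ℤ) = ((g i' + ∑ j, e i' j : ℕ) : ℤ) := by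
      rw [hg i, hg i']
    push_cast at h1
    simp only [ex, Fin.snoc_last, Finset.sum_sub_distrib]
    linarith
  · simp [ex]

theorem prod_ex {P : ℕ} (D : ℂ) (hD : D ≠ 0) (b : Fin P → ℂ) (a : Fin P → ℤ) :
    ∏ j : Fin (P + 1), (Fin.snoc (α := fun _ => ℂ) (fun j => D * b j) D : Fin (P + 1) → ℂ) j ^
      ex a j = ∏ j, b j ^ a j := by
  rw [Fin.prod_univ_castSucc]
  simp only [ex, Fin.snoc_castSucc, Fin.snoc_last]
  simp_rw [mul_zpow]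
  rw [Finset.prod_mul_distrib]
  have h : ∀ s : Finset (Fin P), ∏ j ∈ s, D ^ a j = D ^ ∑ j ∈ s, a j := by
    classical
    intro s
    induction s using Finset.induction_on with
    | empty => simp
    | insert i s hi ih => rw [Finset.prod_insert hi, Finset.sum_insert hi, zpow_add₀ hD, ih]
  rw [h, mul_assoc, mul_comm _ (D ^ (-∑ j, a j)), ← mul_assoc, ← zpow_add₀ hD]
  simp

/-! ### the theorem for fixed degrees -/

theorem monK_aux (h : S_coreH) {Y : ℕ → ℕ} (hY : ∀ m : ℕ, ∀ᶠ ν in (Uf : Filter ℕ), m ≤ Y ν)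
    {ι : Type} {T : ℕ → Finset ι} (hT : Big Y T) {k e0 C n P : ℕ} (hn : 1 ≤ n) (hk : 1 ≤ k)
    (he0 : 1 ≤ e0) (b : ℕ → ι → Fin P → ℂ)
    (hinj : ∀ᶠ ν in (Uf : Filter ℕ), ∀ τ ∈ T ν, ∀ τ' ∈ T ν, b ν τ = b ν τ' → τ = τ')
    (e : ℕ → Fin n → Fin P → ℕ) (g : ℕ → Fin n → ℕ) (G r w : ℕ → ℕ) (u : ℕ → Fin n → ℤ)
    (hw : Few Y w) (hr : Few Y r) (hG : Few Y G)
    (hr' : ∀ c : ℕ, ∀ᶠ ν in (Uf : Filter ℕ), c ≤ r ν)
    (hg : ∀ᶠ ν in (Uf : Filter ℕ), ∀ i, g ν i + ∑ j, e ν i j = G ν)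
    (hu : ∀ᶠ ν in (Uf : Filter ℕ), ∀ i, u ν i ≠ 0 ∧ |u ν i| ≤ 2 ^ w ν)
    (hb : ∀ᶠ ν in (Uf : Filter ℕ), ∀ τ ∈ T ν, (∀ j, b ν τ j ≠ 0) ∧
      (∀ J : Finset (Fin n), J.Nonempty → ∑ i ∈ J, (u ν i : ℂ) * ∏ j, b ν τ j ^ e ν i j ≠ 0))
    (x : ℕ → ι → DT P k) (hx : ∀ᶠ ν in (Uf : Filter ℕ), ∀ τ ∈ T ν,
      PK C (Y ν) e0 (b ν τ) (e ν) (g ν) (w ν) (r ν) (u ν) (x ν τ)) :
    ∃ (T' : ℕ → Finset ι) (C' : ℕ) (H : ℕ → (Fin P → ℤ) → ℕ),
      (∀ᶠ ν in (Uf : Filter ℕ), T' ν ⊆ T ν) ∧ Big Y T' ∧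
      (∀ᶠ ν in (Uf : Filter ℕ), (∀ a b, H ν (a + b) ≤ H ν a + H ν b) ∧
        (∀ (k : ℕ) a, H ν (k • a) = k * H ν a) ∧ (∀ a, H ν (-a) = H ν a) ∧
        (∀ j, H ν (Pi.single j 1) ≤ C') ∧
        ∀ i i', H ν (fun j => (e ν i j : ℤ) - (e ν i' j : ℤ)) ≤ C') ∧
      ∀ a : ℕ → Fin P → ℤ, (∀ᶠ ν in (Uf : Filter ℕ), H ν (a ν) = 0) →
        ∀ T₂ : ℕ → Finset ι, (∀ᶠ ν in (Uf : Filter ℕ), T₂ ν ⊆ T' ν) → Big Y T₂ →
        ∃ T₃ : ℕ → Finset ι, (∀ᶠ ν in (Uf : Filter ℕ), T₃ ν ⊆ T₂ ν) ∧ Big Y T₃ ∧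
          ∀ᶠ ν in (Uf : Filter ℕ), ∀ τ ∈ T₃ ν, ∀ τ' ∈ T₃ ν,
            ∏ j, b ν τ j ^ a ν j = ∏ j, b ν τ' j ^ a ν j := by
  classical
  have hne : Nonempty ι := by
    obtain ⟨ν, τ, -⟩ := hT.nonempty.exists
    exact ⟨τ⟩
  obtain ⟨M, hM⟩ : ∃ M : ℕ → ℤ, ∀ ν, M ν = ((Y ν : ℤ) + 2) ^ C + 1 := ⟨_, fun _ => rfl⟩
  obtain ⟨f, hf⟩ : ∃ f : ℕ → ι → Fin (NN P k) → ℤ, ∀ ν τ, f ν τ = pt (M ν) (x ν τ) :=
    ⟨_, fun _ _ => rfl⟩
  choose sc hsc using fun ν => sect (T ν) (f ν)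
  obtain ⟨Om, hOmd⟩ : ∃ Om : ℕ → Finset (Fin (NN P k) → ℤ), ∀ ν, Om ν = (T ν).image (f ν) :=
    ⟨_, fun _ => rfl⟩
  have hgm : ∀ ν, ∀ t ∈ Om ν, sc ν t ∈ T ν := fun ν t ht => (hsc ν t (hOmd ν ▸ ht)).1
  have hgf' : ∀ ν, ∀ t ∈ Om ν, f ν (sc ν t) = t := fun ν t ht => (hsc ν t (hOmd ν ▸ ht)).2
  have hgf : ∀ ν, ∀ t ∈ Om ν, pt (M ν) (x ν (sc ν t)) = t := fun ν t ht => by
    rw [← hf]
    exact hgf' ν t ht
  -- the number of points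
  have hOm : Big Y Om := by
    refine big_const_mul hY k hT ?_
    filter_upwards [hx, hinj] with ν a2 a3
    rw [hOmd]
    refine Finset.card_le_mul_card_image _ _ fun t ht => ?_
    have hin : Set.InjOn (fun τ => (x ν τ).α) ((T ν).filter fun τ => f ν τ = t) := by
      intro τ hτ τ' hτ' hh
      rw [Finset.coe_filter, Set.mem_ofPred_eq] at hτ hτ'
      have hh' : (x ν τ).α = (x ν τ').α := hh
      apply a3 τ hτ.1 τ' hτ'.1
      have hpt : pt (M ν) (x ν τ) = pt (M ν) (x ν τ') := by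
        rw [← hf, ← hf, hτ.2, hτ'.2]
      have hD : ((x ν τ).D : ℂ) = (x ν τ').D := by
        rw [← vlD (x ν τ) hk (x ν τ).α, ← vlD (x ν τ') hk (x ν τ).α, ← cvD (M ν) (x ν τ),
          ← cvD (M ν) (x ν τ'), hpt]
      funext j
      have key : ((x ν τ).D : ℂ) * b ν τ j = (x ν τ).D * b ν τ' j := by
        conv_rhs => rw [hD]
        rw [← (a2 τ hτ.1).evb j, ← (a2 τ' hτ'.1).evb j, hh', ← cvb (M ν) (x ν τ) j,
          ← cvb (M ν) (x ν τ') j, hpt]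
      exact mul_left_cancel₀ (Nat.cast_ne_zero.2 (a2 τ hτ.1).D0) key
    rw [← Finset.card_image_of_injOn hin]
    refine roots_card (cv (ixo P k) (ixm P k) t) _ fun a ha => ?_
    obtain ⟨τ, hτ, rfl⟩ := Finset.mem_image.1 ha
    rw [Finset.mem_filter] at hτ
    rw [← hτ.2, hf, cvm]
    exact (a2 τ hτ.1).root
  -- the algebraic integers
  obtain ⟨A, hAo, hAm, hAa⟩ : ∃ A : AD Om k, A.o = ixo P k ∧ A.μ = ixm P k ∧
      A.α = fun ν t => (x ν (sc ν t)).α := by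
    refine ⟨⟨ixo P k, ixm P k, fun ν t => (x ν (sc ν t)).α, hk, ?_, ?_⟩, rfl, rfl, rfl⟩
    · filter_upwards [hx] with ν a t ht
      have h1 := cvm (M ν) (x ν (sc ν t))
      rw [hgf ν t ht] at h1
      rw [h1]
      exact (a _ (hgm ν t ht)).root
    · filter_upwards [hx] with ν a t ht
      exact (a _ (hgm ν t ht)).lin
  have eb : ∀ ν, ∀ t ∈ Om ν, ∀ i, cv A.o (ixb P k i) t = (x ν (sc ν t)).vb i := by
    intro ν t ht i
    have h1 := cvb (M ν) (x ν (sc ν t)) i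
    rwa [hgf ν t ht, ← hAo] at h1
  have eD : ∀ ν, ∀ t ∈ Om ν, vl (A.α ν t) (cv A.o (ixD P k) t) = ((x ν (sc ν t)).D : ℂ) := by
    intro ν t ht
    have h1 := cvD (M ν) (x ν (sc ν t))
    rw [hgf ν t ht, ← hAo] at h1
    rw [h1, vlD _ hk]
  obtain ⟨ξ, hξ⟩ : ∃ ξ : Fin (P + 1) → Fin k → Fin (NN P k), ξ =
    Fin.snoc (α := fun _ => Fin k → Fin (NN P k)) (fun j => ixb P k j) (ixD P k) := ⟨_, rfl⟩
  have vX0 : ∀ ν, ∀ t ∈ Om ν, ∀ j : Fin (P + 1), vl (A.α ν t) (cv A.o (ξ j) t) =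
      (Fin.snoc (α := fun _ => ℂ) (fun j => vl (x ν (sc ν t)).α ((x ν (sc ν t)).vb j))
        ((x ν (sc ν t)).D : ℂ) : Fin (P + 1) → ℂ) j := by
    intro ν t ht j
    rw [hξ]
    refine Fin.lastCases ?_ (fun j => ?_) j
    · simp only [Fin.snoc_last]
      exact eD ν t ht
    · simp only [Fin.snoc_castSucc]
      rw [eb ν t ht, hAa]
  have vX : ∀ᶠ ν in (Uf : Filter ℕ), ∀ t ∈ Om ν, ∀ j : Fin (P + 1),
      vl (A.α ν t) (cv A.o (ξ j) t) =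
      (Fin.snoc (α := fun _ => ℂ) (fun j => ((x ν (sc ν t)).D : ℂ) * b ν (sc ν t) j)
        ((x ν (sc ν t)).D : ℂ) : Fin (P + 1) → ℂ) j := by
    filter_upwards [hx] with ν a t ht j
    rw [vX0 ν t ht]
    congr 1
    funext j
    exact (a _ (hgm ν t ht)).evb j
  -- the sizes
  obtain ⟨Y', hY'd⟩ : ∃ Y' : ℕ → ℕ, ∀ ν, Y' ν = (Y ν + 2) ^ (C + 2) := ⟨_, fun _ => rfl⟩
  have hYe : Y' = fun ν => (Y ν + 2) ^ (C + 2) := funext hY'd
  have hYY : ∀ᶠ ν in (Uf : Filter ℕ), Y ν ≤ Y' ν := Filter.Eventually.of_forall fun ν => by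
    have := Y'_ge (Y ν) C
    rw [hY'd]
    omega
  have hY' : ∀ m : ℕ, ∀ᶠ ν in (Uf : Filter ℕ), m ≤ Y' ν := by
    intro c
    filter_upwards [hY c, hYY] with ν a1 a2
    exact a1.trans a2
  have hOm' : Big Y' Om := by
    rw [hYe]
    exact big_up C hOm
  have hbdd : Bdd Y' Om := by
    filter_upwards [hx] with ν a t ht j
    have h1 := pt_bdK (M ν) (a _ (hgm ν t ht)) (hM ν) j
    rw [hgf ν t ht] at h1
    rw [hY'd]
    exact h1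
  -- the terms
  obtain ⟨S, hSe, hSu⟩ : ∃ S : TD Y' (P + 1) n,
      S.e = (fun ν i => Fin.snoc (α := fun _ => ℕ) (e ν i) (g ν i)) ∧ S.u = u := by
    refine ⟨⟨fun ν i => Fin.snoc (α := fun _ => ℕ) (e ν i) (g ν i), u, w, ?_, hu, ?_⟩, rfl, rfl⟩
    · intro c
      have h1 := ((Few.const hY n).mul hG).mono_Y hYY
      filter_upwards [h1 c, hg] with ν a1 a2
      have h2 : ∑ i, ∑ j, (Fin.snoc (α := fun _ => ℕ) (e ν i) (g ν i) : Fin (P + 1) → ℕ) j =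
          n * G ν := by
        have h3 : ∀ i, ∑ j, (Fin.snoc (α := fun _ => ℕ) (e ν i) (g ν i) : Fin (P + 1) → ℕ) j =
            G ν := by
          intro i
          rw [Fin.sum_univ_castSucc]
          simp only [Fin.snoc_castSucc, Fin.snoc_last]
          rw [add_comm]
          exact a2 i
        simp only [h3, Finset.sum_const, Finset.card_univ, Fintype.card_fin, smul_eq_mul]
      rw [h2]
      exact a1
    · exact hw.mono_Y hYY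
  have hTA0 : ∀ ν, ∀ t ∈ Om ν, ∀ i, TA S A.α A.o ξ ν i t = (u ν i : ℂ) *
      (((x ν (sc ν t)).D : ℂ) ^ g ν i *
        ∏ j, vl (x ν (sc ν t)).α ((x ν (sc ν t)).vb j) ^ e ν i j) := by
    intro ν t ht i
    unfold TA
    rw [hSe, hSu, Fin.prod_univ_castSucc]
    simp only [Fin.snoc_castSucc, Fin.snoc_last, vX0 ν t ht]
    ring
  have hTA : ∀ᶠ ν in (Uf : Filter ℕ), ∀ t ∈ Om ν, ∀ i, TA S A.α A.o ξ ν i t =
      ((x ν (sc ν t)).D : ℂ) ^ G ν * ((u ν i : ℂ) * ∏ j, b ν (sc ν t) j ^ e ν i j) := by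
    filter_upwards [hx, hg] with ν a1 a2 t ht i
    rw [hTA0 ν t ht]
    have h1 : ∏ j, vl (x ν (sc ν t)).α ((x ν (sc ν t)).vb j) ^ e ν i j =
        ((x ν (sc ν t)).D : ℂ) ^ (∑ j, e ν i j) * ∏ j, b ν (sc ν t) j ^ e ν i j := by
      rw [← Finset.prod_pow_eq_pow_sum, ← Finset.prod_mul_distrib]
      refine Finset.prod_congr rfl fun j _ => ?_
      rw [(a1 _ (hgm ν t ht)).evb j, mul_pow]
    rw [h1, ← a2 i, pow_add]
    ring
  obtain ⟨Om₁, C₁, H, hO1, hO2, hO3, hO4⟩ := h Y' (NN P k) Om hY' hOm' hbdd k A (P + 1) n ξ S hn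
    (by
      filter_upwards [hx, hb, vX] with ν a1 a2 a3 t ht j
      rw [a3 t ht]
      have h1 : ((x ν (sc ν t)).D : ℂ) ≠ 0 := Nat.cast_ne_zero.2 (a1 _ (hgm ν t ht)).D0
      refine Fin.lastCases ?_ (fun j => ?_) j
      · simp only [Fin.snoc_last]
        exact h1
      · simp only [Fin.snoc_castSucc]
        exact mul_ne_zero h1 ((a2 _ (hgm ν t ht)).1 j))
    (by
      filter_upwards [hx, hb, hTA] with ν a1 a2 a3 t ht J hJ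
      have h1 : ((x ν (sc ν t)).D : ℂ) ≠ 0 := Nat.cast_ne_zero.2 (a1 _ (hgm ν t ht)).D0
      rw [Finset.sum_congr rfl (fun i _ => a3 t ht i), ← Finset.mul_sum]
      exact mul_ne_zero (pow_ne_zero _ h1) ((a2 _ (hgm ν t ht)).2 J hJ))
    e0 r w (fun ν t => (x ν (sc ν t)).ζ) he0 hr' (hr.mono_Y hYY) (hw.mono_Y hYY)
    (by
      filter_upwards [hx] with ν a1 t ht
      have h1 := a1 _ (hgm ν t ht)
      refine ⟨h1.zbd, ?_⟩
      rw [Finset.sum_congr rfl (fun i _ => hTA0 ν t ht i), hAa]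
      exact h1.eq)
  -- the subset
  have hsub : ∀ᶠ ν in (Uf : Filter ℕ), (Om₁ ν).image (sc ν) ⊆ T ν := by
    filter_upwards [hO1] with ν a τ hτ
    obtain ⟨t, ht, rfl⟩ := Finset.mem_image.1 hτ
    exact hgm ν t (a ht)
  refine ⟨fun ν => (Om₁ ν).image (sc ν), 2 * C₁, fun ν a => H ν (ex a), hsub, ?_, ?_, ?_⟩
  · have h1 := big_image hO2 sc (by
      filter_upwards [hO1] with ν a t ht t' ht' hh
      rw [← hgf ν t (a ht), ← hgf ν t' (a ht'), hh])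
    rw [hYe] at h1
    exact big_down C h1
  · filter_upwards [hO3, hg] with ν a a'
    obtain ⟨b1, b2, b3, b4, b5⟩ := a
    refine ⟨fun a b => ?_, fun m a => ?_, fun a => ?_, fun j => ?_, fun i i' => ?_⟩
    · show H ν (ex (a + b)) ≤ H ν (ex a) + H ν (ex b)
      rw [ex_add]
      exact b1 _ _
    · show H ν (ex (m • a)) = m * H ν (ex a)
      rw [ex_smul]
      exact b2 _ _
    · show H ν (ex (-a)) = H ν (ex a)
      rw [ex_neg]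
      exact b3 _
    · show H ν (ex (Pi.single j 1)) ≤ 2 * C₁
      rw [ex_single]
      have h1 := b1 (Pi.single (Fin.castSucc j) 1) (-Pi.single (Fin.last P) 1)
      rw [b3] at h1
      have h2 := b4 (Fin.castSucc j)
      have h3 := b4 (Fin.last P)
      omega
    · show H ν (ex _) ≤ 2 * C₁
      rw [ex_sub (e ν) (g ν) (G ν) a' i i']
      have h1 := b5 i i'
      rw [hSe] at h1
      exact h1.trans (by omega)
  · intro a ha T₂ hT2 hT2b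
    obtain ⟨Om₂, hOm2⟩ : ∃ Om₂ : ℕ → Finset (Fin (NN P k) → ℤ), ∀ ν, Om₂ ν = (T₂ ν).image (f ν) :=
      ⟨_, fun _ => rfl⟩
    have key : ∀ᶠ ν in (Uf : Filter ℕ), ∀ τ ∈ T₂ ν, f ν τ ∈ Om₁ ν ∧ sc ν (f ν τ) = τ := by
      filter_upwards [hT2, hO1] with ν a1 a2 τ hτ
      obtain ⟨t, ht, rfl⟩ := Finset.mem_image.1 (a1 hτ)
      rw [hgf' ν t (a2 ht)]
      exact ⟨ht, rfl⟩
    have h1 : ∀ᶠ ν in (Uf : Filter ℕ), Om₂ ν ⊆ Om₁ ν := by
      filter_upwards [key] with ν a1 t ht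
      rw [hOm2] at ht
      obtain ⟨τ, hτ, rfl⟩ := Finset.mem_image.1 ht
      exact (a1 τ hτ).1
    have h2 : Big Y' Om₂ := by
      have h3 := big_image hT2b f (by
        filter_upwards [key] with ν a1 τ hτ τ' hτ' hh
        rw [← (a1 τ hτ).2, ← (a1 τ' hτ').2, hh])
      rw [← show Om₂ = fun ν => (T₂ ν).image (f ν) from funext hOm2] at h3
      rw [hYe]
      exact big_up C h3
    obtain ⟨Om₃, g1, g2, g3⟩ := hO4 (fun ν => ex (a ν)) ha Om₂ h1 h2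
    refine ⟨fun ν => (Om₃ ν).image (sc ν), ?_, ?_, ?_⟩
    · filter_upwards [g1, key] with ν a1 a2 τ hτ
      obtain ⟨t, ht, rfl⟩ := Finset.mem_image.1 hτ
      have ht2 := a1 ht
      rw [hOm2] at ht2
      obtain ⟨τ₂, hτ₂, rfl⟩ := Finset.mem_image.1 ht2
      rw [(a2 τ₂ hτ₂).2]
      exact hτ₂
    · have h3 := big_image g2 sc (by
        filter_upwards [g1, h1, hO1] with ν a1 a2 a3 t ht t' ht' hh
        rw [← hgf ν t (a3 (a2 (a1 ht))), ← hgf ν t' (a3 (a2 (a1 ht'))), hh])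
      rw [hYe] at h3
      exact big_down C h3
    · filter_upwards [g1, h1, hO1, g3, vX, hx] with ν a1 a2 a3 a4 a5 a6 τ hτ τ' hτ'
      obtain ⟨t, ht, rfl⟩ := Finset.mem_image.1 hτ
      obtain ⟨t', ht', rfl⟩ := Finset.mem_image.1 hτ'
      have e1 : ∀ t ∈ Om ν, ∏ j, vl (A.α ν t) (cv A.o (ξ j) t) ^ ex (a ν) j =
          ∏ j, b ν (sc ν t) j ^ a ν j := by
        intro t m1
        rw [← prod_ex _ (Nat.cast_ne_zero.2 (a6 _ (hgm ν t m1)).D0) (b ν (sc ν t)) (a ν)]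
        refine Finset.prod_congr rfl fun j _ => ?_
        rw [a5 t m1 j]
      rw [← e1 t (a3 (a2 (a1 ht))), ← e1 t' (a3 (a2 (a1 ht')))]
      exact a4 t ht t' ht'

/-- **HK/K3**: heights on the monomials in the ultraproduct. -/
theorem monK (h : S_coreH) : S_monK := by
  classical
  intro Y hY ι T hT κ C n P b hn hinj e g G r w u hw hr hG hr' hg hu hdat
  -- the degrees
  obtain ⟨Q, hQ⟩ : ∃ Q : ℕ → ι → Fin (κ + 1) × Fin (κ + 1) → Prop, ∀ ν τ p, Q ν τ p ↔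
    (1 ≤ (p.1 : ℕ) ∧ 1 ≤ (p.2 : ℕ) ∧ ∃ x : DT P p.1,
      PK C (Y ν) p.2 (b ν τ) (e ν) (g ν) (w ν) (r ν) (u ν) x) := ⟨_, fun _ _ _ => Iff.rfl⟩
  have hPe : ∀ᶠ ν in (Uf : Filter ℕ), ∀ τ ∈ T ν, Q ν τ (Classical.epsilon (Q ν τ)) := by
    filter_upwards [hdat] with ν a τ hτ
    obtain ⟨-, -, R, e', ζ, he, heκ, hz, heq⟩ := a τ hτ
    apply Classical.epsilon_spec
    refine ⟨(⟨R.k, Nat.lt_succ_of_le R.hk⟩, ⟨e', Nat.lt_succ_of_le heκ⟩), ?_⟩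
    rw [hQ]
    exact ⟨R.hk1, he, ⟨R.α, 0, 0, R.D, R.mm, R.vb, 0, 0, ζ⟩,
      ⟨R.D0, R.Dbd, R.mbd, R.vbbd, rfl, rfl, R.root, R.lin, R.evb, hz, heq⟩⟩
  obtain ⟨T2, h1, h2, h3⟩ := hT.fiber (fun ν τ => Classical.epsilon (Q ν τ))
    (fun _ => Finset.univ) (Filter.Eventually.of_forall fun ν τ hτ => Finset.mem_univ _)
    (Few.const hY _)
  have h4 : ∃ p : Fin (κ + 1) × Fin (κ + 1), ∀ᶠ ν in (Uf : Filter ℕ), ∀ τ ∈ T2 ν, Q ν τ p := by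
    apply ev_exists
    filter_upwards [h1, h3, hPe, h2.nonempty] with ν a1 a3 a4 a5
    obtain ⟨τ0, hτ0⟩ := a5
    refine ⟨Classical.epsilon (Q ν τ0), fun τ hτ => ?_⟩
    have h5 := a4 τ (a1 hτ)
    rwa [a3 τ hτ τ0 hτ0] at h5
  obtain ⟨⟨⟨k, hkk⟩, ⟨e', hee⟩⟩, h5⟩ := h4
  simp only [hQ] at h5
  have hk : 1 ≤ k := by
    obtain ⟨ν, a1, τ, hτ⟩ := (h5.and h2.nonempty).exists
    exact (a1 τ hτ).1
  have he : 1 ≤ e' := by
    obtain ⟨ν, a1, τ, hτ⟩ := (h5.and h2.nonempty).exists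
    exact (a1 τ hτ).2.1
  obtain ⟨T', C', H, g1, g2, g3, g4⟩ := monK_aux h hY h2 hn hk he b
    (by
      filter_upwards [hinj, h1] with ν a1 a2 τ hτ τ' hτ' hh
      exact a1 τ (a2 hτ) τ' (a2 hτ') hh)
    e g G r w u hw hr hG hr' hg hu
    (by
      filter_upwards [hdat, h1] with ν a1 a2 τ hτ
      exact ⟨(a1 τ (a2 hτ)).1, (a1 τ (a2 hτ)).2.1⟩)
    (fun ν τ => Classical.epsilon fun x : DT P k =>
      PK C (Y ν) e' (b ν τ) (e ν) (g ν) (w ν) (r ν) (u ν) x)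
    (by
      filter_upwards [h5] with ν a1 τ hτ
      exact Classical.epsilon_spec (a1 τ hτ).2.2)
  refine ⟨T', C', H, ?_, g2, g3, g4⟩
  filter_upwards [g1, h1] with ν a1 a2
  exact a1.trans a2

end Pool.Agent.N519.HK
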